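import Pool.Agent.Lib.MP_318f17_gt.Seq

set_option autoImplicit false

namespace Pool.Agent.Results.MP_318f17_gt.AddSequence

universe u

/-- For every infinite compact Hausdorff space `X`, the topological sum `Y` of `X` and the
one point compactification of the discrete naturals is compact Hausdorff, contains a nontrivial
convergent sequence, and the spaces of continuous real functions on `X` and on `Y`, as subspaces
of the product spaces, are homeomorphic. -/
theorem result (X : Type u) [TopologicalSpace X] [CompactSpace X] [T2Space X] [Infinite X] :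
    CompactSpace (X ⊕ OnePoint ℕ) ∧ T2Space (X ⊕ OnePoint ℕ) ∧
      (∃ (s : ℕ → X ⊕ OnePoint ℕ) (y : X ⊕ OnePoint ℕ), Function.Injective s ∧ (∀ n, s n ≠ y) ∧
        Filter.Tendsto s Filter.atTop (nhds y)) ∧
      Nonempty ({f : X → ℝ // Continuous f} ≃ₜ {g : X ⊕ OnePoint ℕ → ℝ // Continuous g}) :=
  ⟨inferInstance, inferInstance,
    ⟨fun n => Sum.inr (n : OnePoint ℕ), Sum.inr OnePoint.infty,
      Sum.inr_injective.comp OnePoint.coe_injective,
      fun n h => OnePoint.coe_ne_infty n (Sum.inr_injective h),
      (OnePoint.continuous_iff_from_nat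
        (fun a => (Sum.inr a : X ⊕ OnePoint ℕ))).1 continuous_inr⟩,
    Pool.Agent.Lib.MP_318f17_gt.homeo_sum X⟩

end Pool.Agent.Results.MP_318f17_gt.AddSequence
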